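import Pool.Agent.TH443.MJ.Final

/-!
# MP_3013d0_nt, Q1: the divergence case holds

For all `m, d ≥ 1`, all `θ ∈ [0, 1] ^ d`, all non-increasing `ψ`, and all dimension functions `f`
satisfying condition (A) and such that `x ↦ x ^ (1 - m d) f x` is non-decreasing: if the series
`Σ(Ψ, f)` diverges, then the Hausdorff `f`-measure of `W_{Ψ, θ}` is infinite.

Outline. Write `f(r) = r ^ (m d - 1) g(r)`. The series is comparable with `∑ n ^ m g(ψ(n) / (2 n))`.
The set `W` contains the points of the cube for which the first form alone satisfies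
`|q · x₁ - p - θ₁| ≤ ψ(|q|) / 2` infinitely often; we use only the `q` whose first coordinate is
`|q|`. On almost every line in the direction of the first coordinate of `x₁` this set is the limsup
set of intervals of radius `ψ(|q|) / (2 |q|)` whose centres `c` have the following property:
almost every point of `[0, 1]` is infinitely often at distance less than `g(ψ(|q|) / (2 |q|))` from
the centres. This is an inhomogeneous Khintchine-Groshev theorem for one form and non-increasing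
radii (`MJ.kg`; for `m = 1` by Dirichlet's theorem and a greedy choice of intervals, for `m ≥ 2` by
the pairwise independence of linearly independent forms). A one dimensional mass transference
argument (`MJ.step_lemma`, `MJ.content_lower`) bounds from below the `g`-cost of the covers of
this limsup set: if a countable family of intervals is cheap for an interval `I` then it is cheap
for some small interval of the family in `I`; otherwise many disjoint rounds of bad intervals would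
exhaust the cost on `I`. Integration over the lines gives the bound for covers in `ℝ ^ (m d)`.
-/

set_option autoImplicit false

open Filter Set Topology
open scoped ENNReal

namespace Pool.Agent.Results.MP_3013d0_nt.Divergence

/-- `‖t‖`, the distance from `t` to the nearest integer -/
noncomputable def nrm (t : ℝ) : ℝ := |t - round t|

/-- the sup norm `|q|` of an integer vector -/
def supNorm {m : ℕ} (q : Fin m → ℤ) : ℕ := Finset.univ.sup fun j => (q j).natAbs

/-- the set `W_{Ψ, θ}`: the points `X` of the unit cube (rows `X i`, `i < d`, of length `m`) such that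
`∏ i, ‖q · X i - θ i‖ < Ψ q` for infinitely many nonzero integer vectors `q` -/
def W (m d : ℕ) (Ψ : (Fin m → ℤ) → ℝ) (θ : Fin d → ℝ) : Set (Fin d → Fin m → ℝ) :=
  {X | (∀ i j, X i j ∈ Icc (0 : ℝ) 1) ∧
    {q : Fin m → ℤ | q ≠ 0 ∧ ∏ i, nrm (∑ j, (q j : ℝ) * X i j - θ i) < Ψ q}.Infinite}

/-- dimension functions: positive, continuous, increasing on `(0, ∞)`, with limit `0` at `0` -/
structure DimensionFunction (f : ℝ → ℝ) : Prop where
  pos : ∀ r, 0 < r → 0 < f r
  continuousOn : ContinuousOn f (Ioi 0)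
  monotoneOn : MonotoneOn f (Ioi 0)
  tendsto_zero : Tendsto f (𝓝[>] 0) (𝓝 0)

/-- condition (A) -/
def ConditionA (m d : ℕ) (f : ℝ → ℝ) : Prop :=
  ∃ s C : ℝ, (m * d : ℝ) - 1 < s ∧ s < m * d ∧ 0 < C ∧
    ∀ x y, 0 < x → x < y → f y ≤ C * (y / x) ^ s * f x

/-- the series `Σ(Ψ, f)`; the terms with `Ψ q = 0` are omitted -/
noncomputable def series (m d : ℕ) (Ψ : (Fin m → ℤ) → ℝ) (f : ℝ → ℝ) : ℝ≥0∞ :=
  ∑' q : {q : Fin m → ℤ // q ≠ 0 ∧ Ψ q ≠ 0},
    ENNReal.ofReal ((supNorm q.1 : ℝ) ^ (m * d) * Ψ q.1 ^ (1 - (m * d : ℝ)) *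
      f (Ψ q.1 / supNorm q.1))

/-- `inf ∑ f (diam B_i)` over the countable covers of `S` by sets of diameter at most `ρ`
(a set of diameter `0` contributes `0`) -/
noncomputable def cover {E : Type} [PseudoMetricSpace E] (f : ℝ → ℝ) (S : Set E) (ρ : ℝ) : ℝ≥0∞ :=
  ⨅ (B : ℕ → Set E) (_ : S ⊆ ⋃ i, B i) (_ : ∀ i, Metric.ediam (B i) ≤ ENNReal.ofReal ρ),
    ∑' i, if Metric.ediam (B i) = 0 then 0 else ENNReal.ofReal (f (Metric.ediam (B i)).toReal)

/-- the Hausdorff `f`-measure of `S` is infinite: the infima over the covers by sets of diameter at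
most `ρ` tend to infinity as `ρ` tends to `0` -/
def InfiniteMeasure {E : Type} [PseudoMetricSpace E] (f : ℝ → ℝ) (S : Set E) : Prop :=
  Tendsto (cover f S) (𝓝[>] 0) (𝓝 ⊤)

/-- the infima increase as `ρ` decreases, so their limit is their supremum -/
theorem cover_anti {E : Type} [PseudoMetricSpace E] (f : ℝ → ℝ) (S : Set E) :
    Antitone (cover f S) := by
  intro ρ ρ' h
  refine le_iInf fun B => le_iInf fun h1 => le_iInf fun h2 => ?_
  exact iInf_le_of_le B (iInf_le_of_le h1 (iInf_le_of_le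
    (fun i => (h2 i).trans (ENNReal.ofReal_le_ofReal h)) le_rfl))

/-- the map from euclidean space to matrices -/
def toMat {m d : ℕ} (X : EuclideanSpace ℝ (Fin d × Fin m)) : Fin d → Fin m → ℝ :=
  fun i j => X (i, j)

theorem sup_case {m d : ℕ} (hm : 1 ≤ m) (hd : 1 ≤ d) (θ : Fin d → ℝ)
    (hθ : ∀ i, θ i ∈ Icc (0 : ℝ) 1)
    (ψ : ℕ → ℝ) (hψ0 : ∀ n, 1 ≤ n → 0 ≤ ψ n) (hψ : ∀ a b, 1 ≤ a → a ≤ b → ψ b ≤ ψ a)
    (f : ℝ → ℝ) (hf : DimensionFunction f) (hA : ConditionA m d f)
    (hf2 : MonotoneOn (fun x => x ^ (1 - (m * d : ℝ)) * f x) (Ioi 0))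
    (hdiv : series m d (fun q => ψ (supNorm q)) f = ⊤) :
    InfiniteMeasure f (W m d (fun q => ψ (supNorm q)) θ) := by
  obtain ⟨m, rfl⟩ : ∃ k, m = k + 1 := ⟨m - 1, by omega⟩
  obtain ⟨d, rfl⟩ : ∃ k, d = k + 1 := ⟨d - 1, by omega⟩
  obtain ⟨s, C, -, hs2, hC, hA⟩ := hA
  set e : ℕ := (d + 1) * (m + 1) - 1 with he
  have he1 : e + 1 = (m + 1) * (d + 1) := by
    have : 0 < (d + 1) * (m + 1) := by positivity
    rw [he, mul_comm (m + 1)]
    omega
  have heR : (((m + 1 : ℕ) : ℝ) * ((d + 1 : ℕ) : ℝ)) = (e : ℝ) + 1 := by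
    have : (((m + 1) * (d + 1) : ℕ) : ℝ) = ((e + 1 : ℕ) : ℝ) := by rw [he1]
    push_cast at this ⊢
    linarith
  have hexp : ∀ x : ℝ, 0 < x → x ^ (1 - (((m + 1 : ℕ) : ℝ) * ((d + 1 : ℕ) : ℝ))) = (x ^ e)⁻¹ := by
    intro x hx
    rw [heR, show (1 : ℝ) - (e + 1) = -(e : ℝ) by ring, Real.rpow_neg hx.le, Real.rpow_natCast]
  have hmono : ∀ x y, 0 < x → x ≤ y → f x / x ^ e ≤ f y / y ^ e := by
    intro x y hx hxy
    have hy : 0 < y := hx.trans_le hxy
    have := hf2 (mem_Ioi.2 hx) (mem_Ioi.2 hy) hxy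
    simp only at this
    rw [hexp x hx, hexp y hy] at this
    rw [div_eq_inv_mul, div_eq_inv_mul]
    exact this
  have hs : s < (e : ℝ) + 1 := by rw [← heR]; exact hs2
  -- positivity of `ψ`
  have hψpos : ∀ n, 1 ≤ n → 0 < ψ n := by
    by_contra hcon
    push Not at hcon
    obtain ⟨n0, hn0, hn1⟩ := hcon
    have hz : ∀ n, n0 ≤ n → ψ n = 0 := fun n hn =>
      le_antisymm ((hψ n0 n hn0 hn).trans hn1) (hψ0 n (hn0.trans hn))
    have hfin : Finite {q : Fin (m + 1) → ℤ // q ≠ 0 ∧ ψ (supNorm q) ≠ 0} := by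
      apply Set.Finite.to_subtype
      refine (Set.Finite.pi (fun _ : Fin (m + 1) => Set.finite_Icc (-(n0 : ℤ)) n0)).subset ?_
      rintro q ⟨-, hq⟩ j _
      have h1 : supNorm q < n0 := by
        by_contra h
        exact hq (hz _ (not_lt.1 h))
      have h2 : (q j).natAbs ≤ supNorm q :=
        Finset.le_sup (f := fun j => (q j).natAbs) (Finset.mem_univ j)
      constructor <;> omega
    apply absurd hdiv
    unfold series
    have := Fintype.ofFinite {q : Fin (m + 1) → ℤ // q ≠ 0 ∧ ψ (supNorm q) ≠ 0}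
    rw [tsum_fintype]
    exact (ENNReal.sum_lt_top.2 fun _ _ => ENNReal.ofReal_lt_top).ne
  have hg : Pool.Agent.TH443.MJ.Gauge (fun r => f r / r ^ e) (max C 1) :=
    Pool.Agent.TH443.MJ.gauge_of hf.pos hmono hs hC hA
  have hser : ∑' q : {q : Fin (m + 1) → ℤ // q ≠ 0},
      ENNReal.ofReal (((Finset.univ.sup (fun j => (q.1 j).natAbs) : ℕ) : ℝ) ^ (e + 1) *
        ((ψ (Finset.univ.sup (fun j => (q.1 j).natAbs))) ^ e)⁻¹ *
        f (ψ (Finset.univ.sup (fun j => (q.1 j).natAbs)) /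
          ((Finset.univ.sup (fun j => (q.1 j).natAbs) : ℕ) : ℝ))) = ⊤ := by
    rw [← top_le_iff, ← hdiv]
    unfold series
    refine le_trans (le_of_eq ?_) (ENNReal.tsum_comp_le_tsum_of_injective
      (f := fun q : {q : Fin (m + 1) → ℤ // q ≠ 0 ∧ ψ (supNorm q) ≠ 0} =>
        (⟨q.1, q.2.1⟩ : {q : Fin (m + 1) → ℤ // q ≠ 0})) ?_ _)
    · refine tsum_congr fun q => ?_
      congr 1
      have h1 : 1 ≤ supNorm q.1 := by
        by_contra hcon
        apply q.2.1
        funext j
        have h2 : (q.1 j).natAbs ≤ supNorm q.1 :=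
          Finset.le_sup (f := fun j => (q.1 j).natAbs) (Finset.mem_univ j)
        exact Int.natAbs_eq_zero.1 (by omega)
      rw [hexp _ (hψpos _ h1), ← he1]
      rfl
    · intro q q' h
      apply Subtype.ext
      have := congrArg Subtype.val h
      exact this
  have hdiv2 := Pool.Agent.TH443.MJ.series_bound (m := m) (e := e) (f := f) (le_max_right C 1) hg
    hψpos hser
  show Tendsto _ _ _
  rw [ENNReal.tendsto_nhds_top_iff_nat]
  intro n
  filter_upwards [Pool.Agent.TH443.MJ.final_raw (m := m) (d := d) (θ := θ) hf.pos hf.tendsto_zero hmono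
    hs hC hA hθ hψpos hψ hdiv2 n] with ρ hρ
  refine lt_of_lt_of_le (ENNReal.lt_add_right (ENNReal.natCast_ne_top n) one_ne_zero) ?_
  exact le_iInf fun B => le_iInf fun h1 => le_iInf fun h2 => hρ B h1 h2

/-- **The divergence case (Q1): the answer is positive.** Let `m, d ≥ 1`, `θ ∈ [0, 1] ^ d`, let `ψ` be
nonnegative and non-increasing on the positive integers, and let `f` be a dimension function with
condition (A) such that `x ↦ x ^ (1 - m d) f x` is non-decreasing. If the series `Σ(Ψ, f)` for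
`Ψ q = ψ |q|` diverges, then the Hausdorff `f`-measure of `W_{Ψ, θ}` is infinite, both for the
euclidean metric and for the maximum metric of `ℝ ^ (m d)`. -/
theorem result (m d : ℕ) (hm : 1 ≤ m) (hd : 1 ≤ d) (θ : Fin d → ℝ)
    (hθ : ∀ i, θ i ∈ Icc (0 : ℝ) 1)
    (ψ : ℕ → ℝ) (hψ0 : ∀ n, 1 ≤ n → 0 ≤ ψ n) (hψ : ∀ a b, 1 ≤ a → a ≤ b → ψ b ≤ ψ a)
    (f : ℝ → ℝ) (hf : DimensionFunction f) (hA : ConditionA m d f)
    (hf2 : MonotoneOn (fun x => x ^ (1 - (m * d : ℝ)) * f x) (Ioi 0))
    (hdiv : series m d (fun q => ψ (supNorm q)) f = ⊤) :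
    InfiniteMeasure f {X : EuclideanSpace ℝ (Fin d × Fin m) |
        toMat X ∈ W m d (fun q => ψ (supNorm q)) θ} ∧
      InfiniteMeasure f (W m d (fun q => ψ (supNorm q)) θ) := by
  have hsup := sup_case hm hd θ hθ ψ hψ0 hψ f hf hA hf2 hdiv
  refine ⟨?_, hsup⟩
  refine tendsto_nhds_top_mono' hsup ?_
  intro ρ
  refine le_iInf fun B => le_iInf fun h1 => le_iInf fun h2 => ?_
  have hlip : ∀ X Y : EuclideanSpace ℝ (Fin d × Fin m), edist (toMat X) (toMat Y) ≤ edist X Y := by
    intro X Y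
    rw [edist_dist, edist_dist]
    apply ENNReal.ofReal_le_ofReal
    rw [dist_pi_le_iff dist_nonneg]
    intro i
    rw [dist_pi_le_iff dist_nonneg]
    intro j
    have h3 := PiLp.norm_apply_le (X - Y) (i, j)
    rw [← dist_eq_norm] at h3
    rw [Real.dist_eq]
    exact h3
  have hdiam : ∀ i, Metric.ediam (toMat '' B i) ≤ Metric.ediam (B i) := by
    intro i
    rw [Metric.ediam_image_le_iff]
    intro X hX Y hY
    exact (hlip X Y).trans (Metric.edist_le_ediam_of_mem hX hY)
  have hcov : W m d (fun q => ψ (supNorm q)) θ ⊆ ⋃ i, toMat '' B i := by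
    intro X hX
    have h3 : (WithLp.toLp 2 (fun k : Fin d × Fin m => X k.1 k.2) :
        EuclideanSpace ℝ (Fin d × Fin m)) ∈ {X : EuclideanSpace ℝ (Fin d × Fin m) |
          toMat X ∈ W m d (fun q => ψ (supNorm q)) θ} := hX
    obtain ⟨i, hi⟩ := mem_iUnion.1 (h1 h3)
    exact mem_iUnion.2 ⟨i, _, hi, rfl⟩
  refine iInf_le_of_le (fun i => toMat '' B i) (iInf_le_of_le hcov (iInf_le_of_le
    (fun i => (hdiam i).trans (h2 i)) ?_))
  apply ENNReal.tsum_le_tsum
  intro i
  split_ifs with h3 h4 h4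
  · exact le_rfl
  · exact zero_le
  · exact absurd (le_antisymm ((hdiam i).trans h4.le) zero_le) h3
  · apply ENNReal.ofReal_le_ofReal
    have hfin : Metric.ediam (B i) ≠ ⊤ := ((h2 i).trans_lt ENNReal.ofReal_lt_top).ne
    have hfin' : Metric.ediam (toMat '' B i) ≠ ⊤ := ((hdiam i).trans_lt hfin.lt_top).ne
    exact hf.monotoneOn (mem_Ioi.2 (ENNReal.toReal_pos h3 hfin'))
      (mem_Ioi.2 (ENNReal.toReal_pos h4 hfin)) (ENNReal.toReal_mono hfin (hdiam i))

end Pool.Agent.Results.MP_3013d0_nt.Divergence
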